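import Pool.Agent.R550.TM.Conn
import Pool.Agent.H622R2.CoNP
import Pool.Agent.H671R2.Search

/-!
# Simultaneous graphicness of temporal sequences of matroids is NP-hard

The input is a list of graphs with labelled edges (lists of triples (label, end, end)), and the
matroids of the sequence are their cycle matroids. So every matroid of the sequence is graphic, and
a graph for it is even given.

Reduction from 3-satisfiability, with four connected matroids `M₁ ≥ M₂ ≥ M₃ ≤ M₄`. `M₁` is the cycle
matroid of a complete graph; as complete graphs are determined by their cycle matroids, `M₁` forces
the graph of `M₂`, which is a spanning subgraph `G` of the complete graph, to be `G`. `M₃` consists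
of parallel elements `r_a`, one for each variable, and of pairs of elements `f_j, f_j'` in series, one
for each clause and one further pair (`j = 0`), all of them between the same two poles. It has
`2 ^ m` different graphs, as each `f_j` is at one of the two poles, and for some choices it is always
a minor of `G`. In `M₄` there is, for each `j > 0`, a further element which forms a triangle with
`f_0` and `f_j`, so all the `f_j` have to be at the same pole. For a minor of `G` this means that all
the clause vertices are joined, by contracted edges through their literals, to the vertex `0` of
`G`, while the element `r_a` joins the two literals of the variable `a` and is not contracted to a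
loop.
-/

set_option autoImplicit false

namespace Pool.Agent.Results.MP_bd026d_co.ConnectedHard

open Pool.Agent.NPC Pool.Agent.R550.TM

/-- `x` is an instance: a list of four graphs whose cycle matroids are connected and form a
temporal sequence. -/
def IsInstance (x : List (List (ℕ × ℕ × ℕ))) : Prop :=
  x.length = 4 ∧ Temporal (x.map cm) ∧ ∀ M ∈ x.map cm, Connected M

/-- (1) `cm H` is the cycle matroid of the graph given by the list `H` of triples. (2) Every
language `L` in `NP` has a polynomial-time computable map `f` such that `f x` is, for every `x`, a
list of four graphs whose cycle matroids are connected and form a temporal sequence, and `x` is in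
`L` iff this sequence is simultaneously graphic. (3) The problem whether a list of graphs has
cycle matroids which form a simultaneously graphic temporal sequence is NP-hard under
polynomial-time many-one reductions. (4) If some polynomial-time algorithm decides simultaneous
graphicness correctly for all temporal sequences of four connected matroids, given by graphs, then
`P = NP`. -/
theorem result :
    (∀ H : List (ℕ × ℕ × ℕ), IsCycleMatroid (cm H) (toGraph H)) ∧
    (∀ L : Set (List Bool), InNP L → ∃ f : List Bool → List (List (ℕ × ℕ × ℕ)),
      PolyTime (fun x => bits (f x)) ∧
      ∀ x, IsInstance (f x) ∧ (x ∈ L ↔ SimGraphic ((f x).map cm))) ∧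
    NPHardP (fun x : List (List (ℕ × ℕ × ℕ)) => Temporal (x.map cm) ∧ SimGraphic (x.map cm)) ∧
    ((∃ F : List Bool → List Bool, PolyTime F ∧ ∀ x : List (List (ℕ × ℕ × ℕ)), IsInstance x →
        (F (bits x) = [true] ↔ SimGraphic (x.map cm))) →
      ∀ L : Set (List Bool), InNP L → InP L) := by
  refine ⟨cm_spec, fun L hL => ?_, ?_, ?_⟩
  · obtain ⟨f, hf, hpr, hfL⟩ := hard L hL
    exact ⟨f, PC.toPolyTime hf, fun x => ⟨hpr x, hfL x⟩⟩
  · intro L hL
    obtain ⟨f, hf, hpr, hfL⟩ := hard L hL
    refine ⟨fun x => bits (f x), PC.toPolyTime hf, fun x => ?_⟩
    rw [bits_mem_lang, hfL x]
    exact ⟨fun h => ⟨(hpr x).2.1, h⟩, fun h => h.2⟩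
  · rintro ⟨F, hF, h⟩
    refine hard.collapse (d := fun x => decide (F (bits x) = [true])) ?_ ?_
    · exact NPC.Poly.decide_eq ((Pool.Agent.H622R2.poly_of_polyTime hF).comp
        R671.poly_bits) (NPC.Poly.const [true])
    · intro x hx
      rw [decide_eq_true_eq]
      exact (h x hx).symm

end Pool.Agent.Results.MP_bd026d_co.ConnectedHard
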